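import Mathlib

/-!
# Two-factorisation of Eulerian graphs of maximum degree at most four

A finite graph with all degrees even and at most four has its edges split by two permutations.
-/

namespace Pool.Agent.J6H93.PathCover

open SimpleGraph

variable {V : Type*} [Fintype V] [DecidableEq V]

/-- A nonnegative integer matrix with row and column sums two is the sum of two permutation
matrices. -/
lemma exists_perms_of_sums (w : V → V → ℕ) (hrow : ∀ a, ∑ b, w a b = 2)
    (hcol : ∀ b, ∑ a, w a b = 2) :
    ∃ σ τ : Equiv.Perm V, ∀ a b, w a b = (if σ a = b then 1 else 0) + (if τ a = b then 1 else 0) := by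
  classical
  obtain ⟨f, hf, hft⟩ := (Finset.all_card_le_biUnion_card_iff_exists_injective
    (fun a : V => (Finset.univ : Finset V).filter (fun b => 0 < w a b))).mp (by
      intro A
      set N := A.biUnion (fun a : V => (Finset.univ : Finset V).filter (fun b => 0 < w a b)) with hN
      have h1 : ∑ a ∈ A, ∑ b, w a b = A.card * 2 := by
        rw [Finset.sum_congr rfl (fun a _ => hrow a)]
        simp
      have h2 : ∑ a ∈ A, ∑ b, w a b = ∑ a ∈ A, ∑ b ∈ N, w a b := by
        refine Finset.sum_congr rfl (fun a ha => ?_)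
        symm
        apply Finset.sum_subset (Finset.subset_univ _)
        intro b _ hb
        by_contra hne
        apply hb
        rw [hN, Finset.mem_biUnion]
        refine ⟨a, ha, ?_⟩
        simp
        omega
      have h3 : ∑ a ∈ A, ∑ b ∈ N, w a b ≤ ∑ b ∈ N, ∑ a, w a b := by
        rw [Finset.sum_comm]
        refine Finset.sum_le_sum (fun b _ => ?_)
        exact Finset.sum_le_sum_of_subset (Finset.subset_univ _)
      have h4 : ∑ b ∈ N, ∑ a, w a b = N.card * 2 := by
        rw [Finset.sum_congr rfl (fun a _ => hcol a)]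
        simp
      omega)
  have hbij : Function.Bijective f := (Finite.injective_iff_bijective).mp hf
  set σ : Equiv.Perm V := Equiv.ofBijective f hbij with hσ
  have hσpos : ∀ a, 0 < w a (σ a) := by
    intro a
    have := hft a
    rw [Finset.mem_filter] at this
    exact this.2
  set w' : V → V → ℕ := fun a b => w a b - (if σ a = b then 1 else 0) with hw'
  have hsplit : ∀ a b, w a b = (if σ a = b then 1 else 0) + w' a b := by
    intro a b
    by_cases h : σ a = b
    · subst h
      have := hσpos a
      simp only [hw', if_true]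
      omega
    · simp [hw', h]
  have hrow' : ∀ a, ∑ b, w' a b = 1 := by
    intro a
    have h1 := hrow a
    rw [Finset.sum_congr rfl (fun b _ => hsplit a b), Finset.sum_add_distrib] at h1
    simp at h1
    omega
  have hcol' : ∀ b, ∑ a, w' a b = 1 := by
    intro b
    have h1 := hcol b
    rw [Finset.sum_congr rfl (fun a _ => hsplit a b), Finset.sum_add_distrib] at h1
    have h2 : ∑ a, (if σ a = b then 1 else 0) = 1 := by
      rw [Finset.sum_eq_single (σ.symm b)]
      · simp
      · intro a _ ha
        rw [if_neg]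
        rintro rfl
        simp at ha
      · simp
    omega
  have hex : ∀ a, ∃ b, w' a b = 1 ∧ ∀ c, c ≠ b → w' a c = 0 := by
    intro a
    have hne : ∃ b, w' a b ≠ 0 := by
      by_contra h
      push Not at h
      have := hrow' a
      simp [h] at this
    obtain ⟨b, hb⟩ := hne
    have h1 := hrow' a
    rw [← Finset.add_sum_erase _ _ (Finset.mem_univ b)] at h1
    have hz : ∑ x ∈ Finset.univ.erase b, w' a x = 0 := by omega
    refine ⟨b, by omega, fun c hc => ?_⟩
    exact (Finset.sum_eq_zero_iff.mp hz) c (Finset.mem_erase.mpr ⟨hc, Finset.mem_univ _⟩)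
  choose g hg1 hg0 using hex
  have hginj : Function.Injective g := by
    intro a a' haa
    by_contra hne
    have h1 := hcol' (g a)
    rw [← Finset.add_sum_erase _ _ (Finset.mem_univ a), hg1 a,
      ← Finset.add_sum_erase _ _ (Finset.mem_erase.mpr ⟨Ne.symm hne, Finset.mem_univ a'⟩)] at h1
    have : w' a' (g a) = 1 := by rw [haa]; exact hg1 a'
    omega
  refine ⟨σ, Equiv.ofBijective g ((Finite.injective_iff_bijective).mp hginj), ?_⟩
  intro a b
  rw [hsplit a b]
  congr 1
  by_cases h : g a = b
  · subst h
    simp [hg1]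
  · have : w' a b = 0 := hg0 a b (Ne.symm h)
    rw [this]
    simp [h]

/-- Balanced orientations of graphs with even degrees. -/
lemma exists_orientation (G : SimpleGraph V) [DecidableRel G.Adj] (he : ∀ v, Even (G.degree v)) :
    ∃ D : V → V → Prop, (∀ a b, G.Adj a b ↔ D a b ∨ D b a) ∧ (∀ a b, ¬ (D a b ∧ D b a)) ∧
      ∀ a, ({b | D a b} : Set V).ncard = G.degree a / 2 ∧
        ({b | D b a} : Set V).ncard = G.degree a / 2 := by
  classical
  have hcardv : ∀ e : G.edgeSet, ((Finset.univ : Finset V).filter (fun v => v ∈ (e : Sym2 V))).card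
      = 2 := by
    rintro ⟨e, hemem⟩
    induction e using Sym2.ind with
    | _ a b =>
      have hab : a ≠ b := G.ne_of_adj hemem
      have : (Finset.univ : Finset V).filter (fun v => v ∈ s(a, b)) = {a, b} := by
        ext v
        simp
      simp only
      rw [this, Finset.card_pair hab]
  have hinc : ∀ v : V, ((Finset.univ : Finset G.edgeSet).filter
      (fun e : G.edgeSet => v ∈ (e : Sym2 V))).card = G.degree v := by
    intro v
    rw [← G.card_incidenceFinset_eq_degree v]
    refine Finset.card_bij (fun e _ => (e : Sym2 V)) ?_ ?_ ?_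
    · intro e hemem
      rw [mem_incidenceFinset]
      exact ⟨e.2, by simpa using hemem⟩
    · intro e _ e' _ h
      exact Subtype.ext h
    · intro e hemem
      rw [mem_incidenceFinset] at hemem
      exact ⟨⟨e, hemem.1⟩, by simpa using hemem.2, rfl⟩
  have dbl : ∀ A : Finset G.edgeSet, 2 * A.card =
      ∑ v : V, (A.filter (fun e : G.edgeSet => v ∈ (e : Sym2 V))).card := by
    intro A
    have h1 : ∑ e ∈ A, ((Finset.univ : Finset V).filter (fun v => v ∈ (e : Sym2 V))).card
        = 2 * A.card := by
      rw [Finset.sum_congr rfl (fun e _ => hcardv e)]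
      simp [mul_comm]
    rw [← h1]
    simp_rw [Finset.card_filter]
    rw [Finset.sum_comm]
  obtain ⟨f, hf, hft⟩ := (Finset.all_card_le_biUnion_card_iff_exists_injective
    (fun e : G.edgeSet => ((Finset.univ : Finset V).filter (fun v => v ∈ (e : Sym2 V))).sigma
      (fun v => Finset.range (G.degree v / 2)))).mp (by
      intro A
      have hbi : A.biUnion (fun e : G.edgeSet =>
          ((Finset.univ : Finset V).filter (fun v => v ∈ (e : Sym2 V))).sigma
            (fun v => Finset.range (G.degree v / 2))) =
          ((Finset.univ : Finset V).filter (fun v => ∃ e : G.edgeSet, e ∈ A ∧ v ∈ (e : Sym2 V))).sigma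
            (fun v => Finset.range (G.degree v / 2)) := by
        ext ⟨v, i⟩
        simp only [Finset.mem_biUnion, Finset.mem_sigma, Finset.mem_filter, Finset.mem_univ,
          true_and]
        constructor
        · rintro ⟨e, he, hv, hi⟩
          exact ⟨⟨e, he, hv⟩, hi⟩
        · rintro ⟨⟨e, he, hv⟩, hi⟩
          exact ⟨e, he, hv, hi⟩
      rw [hbi, Finset.card_sigma]
      simp only [Finset.card_range]
      have h1 := dbl A
      have h2 : ∑ v : V, (A.filter (fun e : G.edgeSet => v ∈ (e : Sym2 V))).card ≤
          ∑ v ∈ (Finset.univ : Finset V).filter (fun v => ∃ e : G.edgeSet, e ∈ A ∧ v ∈ (e : Sym2 V)),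
            G.degree v := by
        rw [Finset.sum_filter]
        refine Finset.sum_le_sum (fun v _ => ?_)
        by_cases h : ∃ e : G.edgeSet, e ∈ A ∧ v ∈ (e : Sym2 V)
        · rw [if_pos h, ← hinc v]
          exact Finset.card_le_card (Finset.filter_subset_filter _ (Finset.subset_univ _))
        · rw [if_neg h, Nat.le_zero, Finset.card_eq_zero, Finset.filter_eq_empty_iff]
          intro e he hv
          exact h ⟨e, he, hv⟩
      have h3 : ∑ v ∈ (Finset.univ : Finset V).filter (fun v => ∃ e : G.edgeSet, e ∈ A ∧ v ∈ (e : Sym2 V)),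
            G.degree v = 2 * ∑ v ∈ (Finset.univ : Finset V).filter
              (fun v => ∃ e : G.edgeSet, e ∈ A ∧ v ∈ (e : Sym2 V)), G.degree v / 2 := by
        rw [Finset.mul_sum]
        refine Finset.sum_congr rfl (fun v _ => ?_)
        have := he v
        grind
      omega)
  set tail : G.edgeSet → V := fun e => (f e).1 with htail
  have htailmem : ∀ e : G.edgeSet, tail e ∈ (e : Sym2 V) := by
    intro e
    have := hft e
    rw [Finset.mem_sigma] at this
    simpa using this.1
  have hlt : ∀ e, (f e).2 < G.degree (tail e) / 2 := by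
    intro e
    have := hft e
    rw [Finset.mem_sigma] at this
    simpa using this.2
  have hle : ∀ v, ((Finset.univ : Finset G.edgeSet).filter (fun e => tail e = v)).card ≤
      G.degree v / 2 := by
    intro v
    rw [← Finset.card_range (G.degree v / 2)]
    refine Finset.card_le_card_of_injOn (fun e => (f e).2) ?_ ?_
    · intro e hemem
      simp only [Finset.coe_filter, Finset.mem_univ, true_and, Set.mem_ofPred_eq] at hemem
      simp only [Finset.coe_range, Set.mem_Iio]
      have := hlt e
      rw [hemem] at this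
      exact this
    · intro e h1 e' h2 h3
      simp only [Finset.coe_filter, Finset.mem_univ, true_and, Set.mem_ofPred_eq] at h1 h2
      apply hf
      apply Sigma.ext
      · exact h1.trans h2.symm
      · exact heq_of_eq h3
  have hsum : ∑ v, ((Finset.univ : Finset G.edgeSet).filter (fun e => tail e = v)).card =
      ∑ v, G.degree v / 2 := by
    have h1 : ∑ v, ((Finset.univ : Finset G.edgeSet).filter (fun e => tail e = v)).card =
        (Finset.univ : Finset G.edgeSet).card :=
      (Finset.card_eq_sum_card_fiberwise (fun _ _ => Finset.mem_univ _)).symm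
    have h2 := dbl Finset.univ
    rw [Finset.sum_congr rfl (fun v _ => hinc v)] at h2
    have h3 : ∑ v, G.degree v = 2 * ∑ v, G.degree v / 2 := by
      rw [Finset.mul_sum]
      refine Finset.sum_congr rfl (fun v _ => ?_)
      have := he v
      grind
    omega
  have heq : ∀ v, ((Finset.univ : Finset G.edgeSet).filter (fun e => tail e = v)).card =
      G.degree v / 2 := by
    intro v
    exact (Finset.sum_eq_sum_iff_of_le (fun v _ => hle v)).mp hsum v (Finset.mem_univ v)
  have hout : ∀ a, ({b | ∃ h : G.Adj a b, tail ⟨s(a, b), h⟩ = a} : Set V).ncard =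
      G.degree a / 2 := by
    intro a
    rw [← heq a, Set.ncard_eq_toFinset_card']
    refine Finset.card_bij (fun b hb => ⟨s(a, b), by simpa using (Set.mem_toFinset.mp hb).1⟩)
      ?_ ?_ ?_
    · intro b hb
      simp only [Finset.mem_filter, Finset.mem_univ, true_and]
      exact (Set.mem_toFinset.mp hb).2
    · intro b hb b' hb' h
      have h1 : s(a, b) = s(a, b') := congrArg Subtype.val h
      rw [Sym2.congr_right] at h1
      exact h1
    · rintro ⟨e, he'⟩ h
      simp only [Finset.mem_filter, Finset.mem_univ, true_and] at h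
      have hmem := htailmem ⟨e, he'⟩
      rw [h] at hmem
      obtain ⟨b, rfl⟩ := hmem
      refine ⟨b, ?_, rfl⟩
      rw [Set.mem_toFinset]
      exact ⟨he', h⟩
  have hadj : ∀ a b, G.Adj a b ↔ (∃ h : G.Adj a b, tail ⟨s(a, b), h⟩ = a) ∨
      (∃ h : G.Adj b a, tail ⟨s(b, a), h⟩ = b) := by
    intro a b
    constructor
    · intro h
      have hmem := htailmem ⟨s(a, b), h⟩
      rw [Sym2.mem_iff] at hmem
      rcases hmem with h1 | h1
      · exact Or.inl ⟨h, h1⟩
      · right
        refine ⟨h.symm, ?_⟩
        have : (⟨s(b, a), h.symm⟩ : G.edgeSet) = ⟨s(a, b), h⟩ := Subtype.ext Sym2.eq_swap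
        rw [this]
        exact h1
    · rintro (⟨h, _⟩ | ⟨h, _⟩)
      · exact h
      · exact h.symm
  have hasym : ∀ a b, ¬ ((∃ h : G.Adj a b, tail ⟨s(a, b), h⟩ = a) ∧
      (∃ h : G.Adj b a, tail ⟨s(b, a), h⟩ = b)) := by
    rintro a b ⟨⟨h1, h2⟩, ⟨h3, h4⟩⟩
    have : (⟨s(b, a), h3⟩ : G.edgeSet) = ⟨s(a, b), h1⟩ := Subtype.ext Sym2.eq_swap
    rw [this, h2] at h4
    exact G.ne_of_adj h1 h4
  refine ⟨fun a b => ∃ h : G.Adj a b, tail ⟨s(a, b), h⟩ = a, hadj, hasym, fun a => ⟨hout a, ?_⟩⟩
  have hun : (G.neighborSet a) = {b | ∃ h : G.Adj a b, tail ⟨s(a, b), h⟩ = a} ∪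
      {b | ∃ h : G.Adj b a, tail ⟨s(b, a), h⟩ = b} := by
    ext b
    exact hadj a b
  have hcard : (G.neighborSet a).ncard = G.degree a := by
    rw [Set.ncard_eq_toFinset_card', ← SimpleGraph.card_neighborFinset_eq_degree]
    rfl
  have hcard2 : (G.neighborSet a).ncard =
      ({b | ∃ h : G.Adj a b, tail ⟨s(a, b), h⟩ = a} : Set V).ncard +
      ({b | ∃ h : G.Adj b a, tail ⟨s(b, a), h⟩ = b} : Set V).ncard := by
    rw [hun]
    exact Set.ncard_union_eq (by
      rw [Set.disjoint_left]
      intro b h1 h2
      exact hasym a b ⟨h1, h2⟩) (Set.toFinite _) (Set.toFinite _)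
  rw [hout a, hcard] at hcard2
  have := he a
  have h5 : ({b | ∃ h : G.Adj b a, tail ⟨s(b, a), h⟩ = b} : Set V).ncard = G.degree a / 2 := by
    grind
  exact h5

/-- Two-factorisation: the edges of a graph with even degrees at most four are split by two
permutations. -/
theorem exists_two_perms (G : SimpleGraph V) [DecidableRel G.Adj]
    (he : ∀ v, Even (G.degree v)) (h4 : ∀ v, G.degree v ≤ 4) :
    ∃ σ τ : Equiv.Perm V, ∀ a b, a ≠ b → (if G.Adj a b then 1 else 0) =
      ((if σ a = b then 1 else 0) + (if τ a = b then 1 else 0)) +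
      ((if σ b = a then 1 else 0) + (if τ b = a then 1 else 0)) := by
  classical
  obtain ⟨D, h1, h2, h3⟩ := exists_orientation G he
  have hout : ∀ a, ∑ b, (if D a b then 1 else 0) = G.degree a / 2 := by
    intro a
    rw [← (h3 a).1, Set.ncard_eq_toFinset_card', ← Finset.card_filter]
    congr 1
    ext b
    simp
  have hin : ∀ b, ∑ a, (if D a b then 1 else 0) = G.degree b / 2 := by
    intro b
    rw [← (h3 b).2, Set.ncard_eq_toFinset_card', ← Finset.card_filter]
    congr 1
    ext a
    simp
  obtain ⟨σ, τ, hst⟩ := exists_perms_of_sums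
    (fun a b => (if D a b then 1 else 0) + (if a = b then 2 - G.degree a / 2 else 0)) (by
      intro a
      rw [Finset.sum_add_distrib, hout a]
      simp
      have := h4 a
      omega) (by
      intro b
      rw [Finset.sum_add_distrib, hin b]
      simp
      have := h4 b
      omega)
  refine ⟨σ, τ, ?_⟩
  intro a b hab
  have e1 := hst a b
  have e2 := hst b a
  simp only [if_neg hab, if_neg hab.symm, add_zero] at e1 e2
  rw [← e1, ← e2]
  have h5 := h1 a b
  have h6 := h2 a b
  by_cases hD : D a b
  · have hD' : ¬ D b a := fun h => h6 ⟨hD, h⟩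
    rw [if_pos (h5.mpr (Or.inl hD)), if_pos hD, if_neg hD']
  · by_cases hD' : D b a
    · rw [if_pos (h5.mpr (Or.inr hD')), if_neg hD, if_pos hD']
    · rw [if_neg (fun h => (h5.mp h).elim hD hD'), if_neg hD, if_neg hD']

end Pool.Agent.J6H93.PathCover
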