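import Pool.Agent.J6H93.PathCover.Link
import Pool.Agent.J6H93.PathCover.TwoFactor

/-!
# Breaking the cycles of a two-factorisation

Given two permutations whose arcs are the edges of the graph, choose one arc in each cycle such
that the chosen arcs form a linear forest and such that the number of common ends is odd.
-/

namespace Pool.Agent.J6H93.PathCover

open SimpleGraph

variable {V : Type*}

/-- The graph of the arcs of the permutation `f` starting in `S`. -/
def ag (f : Equiv.Perm V) (S : Set V) : SimpleGraph V where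
  Adj a b := a ≠ b ∧ ((a ∈ S ∧ f a = b) ∨ (b ∈ S ∧ f b = a))
  symm := ⟨by
    rintro a b ⟨h1, h2⟩
    exact ⟨h1.symm, h2.symm⟩⟩
  loopless := ⟨fun a h => h.1 rfl⟩

lemma ag_adj {f : Equiv.Perm V} {S : Set V} {a b : V} :
    (ag f S).Adj a b ↔ a ≠ b ∧ ((a ∈ S ∧ f a = b) ∨ (b ∈ S ∧ f b = a)) := Iff.rfl

lemma ag_empty (f : Equiv.Perm V) : ag f ∅ = ⊥ := by
  ext a b
  simp [ag_adj]

lemma ag_insert (f : Equiv.Perm V) (S : Set V) (y : V) :
    ag f (insert y S) = ag f S ⊔ edge y (f y) := by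
  ext a b
  rw [sup_adj, edge_adj, ag_adj, ag_adj]
  constructor
  · rintro ⟨h1, (⟨rfl | h2, h3⟩ | ⟨rfl | h2, h3⟩)⟩
    · exact Or.inr ⟨Or.inl ⟨rfl, h3.symm⟩, h1⟩
    · exact Or.inl ⟨h1, Or.inl ⟨h2, h3⟩⟩
    · exact Or.inr ⟨Or.inr ⟨h3.symm, rfl⟩, h1⟩
    · exact Or.inl ⟨h1, Or.inr ⟨h2, h3⟩⟩
  · rintro (⟨h1, (⟨h2, h3⟩ | ⟨h2, h3⟩)⟩ | ⟨(⟨h2, h3⟩ | ⟨h2, h3⟩), h1⟩)
    · exact ⟨h1, Or.inl ⟨Or.inr h2, h3⟩⟩
    · exact ⟨h1, Or.inr ⟨Or.inr h2, h3⟩⟩
    · exact ⟨h1, Or.inl ⟨Or.inl h2, by rw [h2, h3]⟩⟩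
    · exact ⟨h1, Or.inr ⟨Or.inl h3, by rw [h2, h3]⟩⟩

/-- No two-cycles. -/
def No2 (f : Equiv.Perm V) : Prop := ∀ a, f (f a) = a → f a = a

open Classical in
lemma deg_ag {f : Equiv.Perm V} (hf : No2 f) (S : Set V) (v : V) :
    deg (ag f S) v = (if v ∈ S ∧ f v ≠ v then 1 else 0) +
      (if f.symm v ∈ S ∧ f v ≠ v then 1 else 0) := by
  by_cases hfv : f v = v
  · have hs : f.symm v = v := by rw [Equiv.symm_apply_eq]; exact hfv.symm
    have : (ag f S).neighborSet v = ∅ := by
      ext b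
      simp only [mem_neighborSet, ag_adj, Set.mem_empty_iff_false, iff_false]
      rintro ⟨h1, (⟨_, h3⟩ | ⟨_, h3⟩)⟩
      · exact h1 (hfv.symm.trans h3)
      · apply h1
        have := congrArg f.symm h3
        rw [Equiv.symm_apply_apply, hs] at this
        exact this.symm
    unfold deg
    rw [this]
    simp [hfv]
  · have hs : f.symm v ≠ v := by
      intro h
      rw [Equiv.symm_apply_eq] at h
      exact hfv h.symm
    have hne : f v ≠ f.symm v := by
      intro h
      apply hfv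
      apply hf
      rw [h, Equiv.apply_symm_apply]
    have hset : (ag f S).neighborSet v = (if v ∈ S then {f v} else ∅) ∪
        (if f.symm v ∈ S then {f.symm v} else ∅) := by
      ext b
      simp only [mem_neighborSet, ag_adj, Set.mem_union]
      constructor
      · rintro ⟨h1, (⟨h2, h3⟩ | ⟨h2, h3⟩)⟩
        · left
          rw [if_pos h2]
          exact h3.symm
        · right
          have : b = f.symm v := by rw [← h3, Equiv.symm_apply_apply]
          subst this
          rw [if_pos h2]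
          rfl
      · rintro (h | h)
        · by_cases h2 : v ∈ S
          · rw [if_pos h2] at h
            have h' : b = f v := h
            subst h'
            exact ⟨Ne.symm hfv, Or.inl ⟨h2, rfl⟩⟩
          · rw [if_neg h2] at h
            exact h.elim
        · by_cases h2 : f.symm v ∈ S
          · rw [if_pos h2] at h
            have h' : b = f.symm v := h
            subst h'
            exact ⟨Ne.symm hs, Or.inr ⟨h2, by simp⟩⟩
          · rw [if_neg h2] at h
            exact h.elim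
    unfold deg
    rw [hset]
    by_cases h1 : v ∈ S <;> by_cases h2 : f.symm v ∈ S <;>
      simp [h1, h2, hfv, Set.ncard_pair, hne, Set.union_singleton, Set.ncard_pair hne.symm]

/-- A partial transversal of the nontrivial cycles. -/
def PTr (f : Equiv.Perm V) (Y : Finset V) : Prop :=
  (∀ y ∈ Y, f y ≠ y) ∧ ∀ y ∈ Y, ∀ y' ∈ Y, f.SameCycle y y' → y = y'

/-- A transversal of the nontrivial cycles. -/
def Tr (f : Equiv.Perm V) (Y : Finset V) : Prop :=
  PTr f Y ∧ ∀ v, f v ≠ v → ∃ y ∈ Y, f.SameCycle v y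

lemma sameCycle_symm_self (f : Equiv.Perm V) (v : V) : f.SameCycle (f.symm v) v := by
  refine ⟨1, ?_⟩
  simp

lemma sameCycle_self_apply (f : Equiv.Perm V) (v : V) : f.SameCycle v (f v) :=
  ⟨1, by simp⟩

lemma deg_ag_le_one {f : Equiv.Perm V} (hf : No2 f) {Y : Finset V} (hY : PTr f Y) (v : V) :
    deg (ag f Y) v ≤ 1 := by
  classical
  rw [deg_ag hf]
  by_cases h1 : v ∈ (Y : Set V) ∧ f v ≠ v
  · have h2 : ¬ (f.symm v ∈ (Y : Set V) ∧ f v ≠ v) := by
      rintro ⟨h3, _⟩
      have := hY.2 _ h3 _ h1.1 (sameCycle_symm_self f v)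
      rw [Equiv.symm_apply_eq] at this
      exact h1.2 this.symm
    rw [if_pos h1, if_neg h2]
  · rw [if_neg h1]
    split_ifs <;> omega

lemma deg_ag_zero {f : Equiv.Perm V} (hf : No2 f) {Y : Finset V} {v : V}
    (hv : ∀ y ∈ Y, ¬ f.SameCycle v y) : deg (ag f Y) v = 0 := by
  classical
  rw [deg_ag hf]
  have h1 : ¬ (v ∈ (Y : Set V) ∧ f v ≠ v) := fun h => hv v h.1 (Equiv.Perm.SameCycle.refl _ _)
  have h2 : ¬ (f.symm v ∈ (Y : Set V) ∧ f v ≠ v) :=
    fun h => hv _ h.1 (sameCycle_symm_self f v).symm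
  rw [if_neg h1, if_neg h2]

/-- The ends of the arcs starting in `Y`. -/
def Bl (f : Equiv.Perm V) (Y : Finset V) (v : V) : Prop := v ∈ Y ∨ f.symm v ∈ Y

lemma deg_ag_of_Bl {f : Equiv.Perm V} (hf : No2 f) {Y : Finset V} (hY : PTr f Y) {v : V}
    (hv : Bl f Y v) : deg (ag f Y) v = 1 := by
  classical
  have hle := deg_ag_le_one hf hY v
  have hfv : f v ≠ v := by
    rcases hv with h | h
    · exact hY.1 v h
    · intro h'
      apply hY.1 _ h
      have : f.symm v = v := by rw [Equiv.symm_apply_eq]; exact h'.symm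
      rw [this, h']
  rw [deg_ag hf] at hle ⊢
  rcases hv with h | h
  · rw [if_pos (⟨h, hfv⟩ : v ∈ (Y : Set V) ∧ f v ≠ v)] at hle ⊢
    omega
  · rw [if_pos (⟨h, hfv⟩ : f.symm v ∈ (Y : Set V) ∧ f v ≠ v)] at hle ⊢
    omega

lemma deg_ag_of_not_Bl {f : Equiv.Perm V} (hf : No2 f) {Y : Finset V} {v : V}
    (hv : ¬ Bl f Y v) : deg (ag f Y) v = 0 := by
  classical
  unfold Bl at hv
  push Not at hv
  rw [deg_ag hf, if_neg (fun h => hv.1 h.1), if_neg (fun h => hv.2 h.1)]

open Classical in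
lemma deg_compl {f : Equiv.Perm V} (hf : No2 f) (Y : Finset V) (v : V) :
    deg (ag f (Y : Set V)ᶜ) v + deg (ag f Y) v = if f v ≠ v then 2 else 0 := by
  rw [deg_ag hf, deg_ag hf]
  by_cases h : f v = v
  · simp [h]
  · by_cases h1 : v ∈ Y <;> by_cases h2 : f.symm v ∈ Y <;> simp [h, h1, h2]

lemma deg_ag_le_two {f : Equiv.Perm V} (hf : No2 f) (S : Set V) (v : V) :
    deg (ag f S) v ≤ 2 := by
  classical
  rw [deg_ag hf]
  split_ifs <;> omega

section Fin

variable [Finite V]

lemma matching_reachable {M : SimpleGraph V} (hM : ∀ v, deg M v ≤ 1) {a b : V}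
    (h : M.Reachable a b) : a = b ∨ M.Adj a b := by
  obtain ⟨w⟩ := h
  induction w with
  | nil => exact Or.inl rfl
  | @cons a c b hac _ ih =>
    rcases ih with rfl | h
    · exact Or.inr hac
    · left
      exact eq_of_deg_le_one (hM c) hac.symm h

lemma matching_acyclic {M : SimpleGraph V} (hM : ∀ v, deg M v ≤ 1) : M.IsAcyclic := by
  intro v c hc
  have h1 := c.adj_snd hc.not_nil
  have h2 := (c.adj_penultimate hc.not_nil).symm
  have := two_le_deg h1 h2 hc.snd_ne_penultimate
  have := hM v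
  omega

lemma isolated_reachable {M : SimpleGraph V} {a b : V} (ha : deg M a = 0)
    (h : M.Reachable a b) : a = b := by
  obtain ⟨w⟩ := h
  cases w with
  | nil => rfl
  | cons h _ => exact absurd h (not_adj_of_deg_zero ha)

/-- The graph of the arcs of a permutation that do not start in a transversal is acyclic. -/
lemma ag_compl_acyclic {f : Equiv.Perm V} {Y : Finset V} (hY : Tr f Y) :
    (ag f (Y : Set V)ᶜ).IsAcyclic := by
  classical
  have : Fintype V := Fintype.ofFinite V
  have hex : ∀ v, f v ≠ v → ∃ k : ℕ, (f ^ k) v ∈ Y := by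
    intro v hv
    obtain ⟨y, hy, hsc⟩ := hY.2 v hv
    obtain ⟨k, _, hk⟩ := hsc.exists_pow_eq'
    exact ⟨k, by rw [hk]; exact hy⟩
  let rk : V → ℕ := fun v => if h : ∃ k : ℕ, (f ^ k) v ∈ Y then Nat.find h else 0
  have hrk : ∀ a, f a ≠ a → a ∉ Y → rk (f a) < rk a := by
    intro a ha haY
    have h1 := hex a ha
    have h2 : ∃ k : ℕ, (f ^ k) (f a) ∈ Y := hex (f a) (fun h => ha (f.injective h))
    simp only [rk, dif_pos h1, dif_pos h2]
    have h3 := Nat.find_spec h1
    have hpos : Nat.find h1 ≠ 0 := by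
      intro h0
      rw [h0] at h3
      exact haY (by simpa using h3)
    obtain ⟨j, hj⟩ := Nat.exists_eq_succ_of_ne_zero hpos
    rw [hj] at h3 ⊢
    refine Nat.lt_succ_of_le (Nat.find_min' h2 ?_)
    rw [Nat.succ_eq_add_one, pow_succ, Equiv.Perm.mul_apply] at h3
    exact h3
  refine isAcyclic_of_par _ f rk ?_
  rintro a b ⟨hab, (⟨h1, h2⟩ | ⟨h1, h2⟩)⟩
  · left
    subst h2
    exact ⟨rfl, hrk a (Ne.symm hab) h1⟩
  · right
    subst h2
    exact ⟨rfl, hrk b hab h1⟩

/-- Extending to a transversal of the nontrivial cycles such that the arcs chosen form, together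
with a given matching, an acyclic graph. -/
lemma exists_transversal (M : SimpleGraph V) (hM : ∀ v, deg M v ≤ 1) (f : Equiv.Perm V)
    (hf : No2 f) (hMf : ∀ a, ¬ M.Adj a (f a)) (y0 : V) (hy0 : f y0 ≠ y0) :
    ∃ Y : Finset V, y0 ∈ Y ∧ Tr f Y ∧ (M ⊔ ag f Y).IsAcyclic := by
  classical
  have : Fintype V := Fintype.ofFinite V
  obtain ⟨Y, hYmem, hmax⟩ := Finset.exists_max_image
    ((Finset.univ : Finset (Finset V)).filter
      (fun Y => y0 ∈ Y ∧ PTr f Y ∧ (M ⊔ ag f Y).IsAcyclic)) Finset.card (by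
    refine ⟨{y0}, ?_⟩
    simp only [Finset.mem_filter, Finset.mem_univ, true_and, Finset.mem_singleton,
      Finset.coe_singleton]
    refine ⟨⟨?_, ?_⟩, ?_⟩
    · intro y hy
      rw [Finset.mem_singleton] at hy
      rw [hy]
      exact hy0
    · intro y hy y' hy' _
      rw [Finset.mem_singleton] at hy hy'
      rw [hy, hy']
    · have : ({y0} : Set V) = insert y0 ∅ := by simp
      rw [this, ag_insert, ag_empty, bot_sup_eq]
      refine (matching_acyclic hM).sup_edge_of_not_reachable ?_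
      intro h
      rcases matching_reachable hM h with h1 | h1
      · exact hy0 h1.symm
      · exact hMf y0 h1)
  simp only [Finset.mem_filter, Finset.mem_univ, true_and] at hYmem hmax
  obtain ⟨hy0Y, hPT, hac⟩ := hYmem
  refine ⟨Y, hy0Y, ⟨hPT, ?_⟩, hac⟩
  intro v hv
  by_contra hcon
  push Not at hcon
  set H := M ⊔ ag f Y with hH
  have hH2 : ∀ u, deg H u ≤ 2 := fun u =>
    le_trans (deg_sup_le _ _ _) (by
      have h1 := hM u
      have h2 := deg_ag_le_one hf hPT u
      omega)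
  have hsc : ∀ u, f.SameCycle v u → deg H u ≤ 1 := by
    intro u hu
    refine le_trans (deg_sup_le _ _ _) ?_
    have h1 := hM u
    have h2 : deg (ag f Y) u = 0 := deg_ag_zero hf (fun y hy h => hcon y hy (hu.trans h))
    omega
  obtain ⟨y, hvy, hynr⟩ : ∃ y, f.SameCycle v y ∧ ¬ H.Reachable y (f y) := by
    by_contra hall
    push Not at hall
    have s1 : f.SameCycle v (f v) := sameCycle_self_apply f v
    have s2 : f.SameCycle v (f (f v)) := s1.trans (sameCycle_self_apply f _)
    have r1 := hall v (Equiv.Perm.SameCycle.refl _ _)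
    have r2 := hall (f v) s1
    exact no_three_ends hH2 (hsc v (Equiv.Perm.SameCycle.refl _ _)) (hsc _ s1) (hsc _ s2)
      (Ne.symm hv) (fun h => hv (hf v h.symm)) (fun h => hv (f.injective h).symm) r1 (r1.trans r2)
  have hyY : y ∉ Y := fun h => hcon y h hvy
  have hfy : f y ≠ y := fun h => hynr (by rw [h])
  have hmem : y0 ∈ insert y Y ∧ PTr f (insert y Y) ∧
      (M ⊔ ag f (insert y Y : Finset V)).IsAcyclic := by
    refine ⟨Finset.mem_insert_of_mem hy0Y, ⟨?_, ?_⟩, ?_⟩
    · intro z hz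
      rw [Finset.mem_insert] at hz
      rcases hz with rfl | hz
      · exact hfy
      · exact hPT.1 z hz
    · intro z hz z' hz' hzz
      rw [Finset.mem_insert] at hz hz'
      rcases hz with rfl | hz <;> rcases hz' with rfl | hz'
      · rfl
      · exact absurd (hvy.trans hzz) (hcon z' hz')
      · exact absurd (hvy.trans hzz.symm) (hcon z hz)
      · exact hPT.2 z hz z' hz' hzz
    · rw [Finset.coe_insert, ag_insert, ← sup_assoc]
      exact hac.sup_edge_of_not_reachable hynr
  have := hmax _ hmem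
  rw [Finset.card_insert_of_notMem hyY] at this
  omega

end Fin

end Pool.Agent.J6H93.PathCover
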