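import Mathlib

/-!
# Linear forests

Basic facts about finite graphs of maximum degree at most two: closure of paths between end
vertices, at most two end vertices in a component of a linear forest, and linear forests with
exactly two odd vertices are paths.
-/

namespace Pool.Agent.J6H93.PathCover

open SimpleGraph

variable {V : Type*}

/-- Degree, as the number of neighbours. -/
noncomputable def deg (L : SimpleGraph V) (v : V) : ℕ := (L.neighborSet v).ncard

/-- A graph is acyclic if its edges join a vertex to a parent of smaller rank. -/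
lemma isAcyclic_of_par (G : SimpleGraph V) (par : V → V) (rk : V → ℕ)
    (h : ∀ a b, G.Adj a b → (b = par a ∧ rk b < rk a) ∨ (a = par b ∧ rk a < rk b)) :
    G.IsAcyclic := by
  classical
  intro v c hc
  obtain ⟨a, ha, hmax⟩ := Finset.exists_max_image c.support.toFinset rk
    ⟨v, by simp⟩
  rw [List.mem_toFinset] at ha
  have hc' := hc.rotate ha
  have hsup : ∀ b ∈ (c.rotate a ha).support, rk b ≤ rk a := by
    intro b hb
    apply hmax
    rw [List.mem_toFinset]
    simpa using hb
  have key : ∀ b ∈ (c.rotate a ha).support, G.Adj a b → b = par a := by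
    intro b hb hab
    rcases h a b hab with h1 | h1
    · exact h1.1
    · have := hsup b hb
      omega
  have h1 := key _ (SimpleGraph.Walk.getVert_mem_support _ _)
    ((c.rotate a ha).adj_snd hc'.not_nil)
  have h2 := key _ (SimpleGraph.Walk.getVert_mem_support _ _)
    ((c.rotate a ha).adj_penultimate hc'.not_nil).symm
  exact hc'.snd_ne_penultimate (h1.trans h2.symm)

lemma getVert_edge_mem {L : SimpleGraph V} {x y : V} (p : L.Walk x y) :
    ∀ i, i < p.length → s(p.getVert i, p.getVert (i + 1)) ∈ p.edges := by
  induction p with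
  | nil => intro i hi; simp at hi
  | @cons a b c h p ih =>
    intro i hi
    cases i with
    | zero => simp
    | succ i =>
      rw [Walk.getVert_cons_succ, Walk.getVert_cons_succ, Walk.edges_cons]
      apply List.mem_cons_of_mem
      apply ih
      simpa using hi

section Fin

variable [Finite V]

lemma eq_of_deg_le_one {L : SimpleGraph V} {x a b : V} (hx : deg L x ≤ 1) (ha : L.Adj x a)
    (hb : L.Adj x b) : a = b := by
  by_contra hne
  have : ({a, b} : Set V) ⊆ L.neighborSet x := by
    rintro z (rfl | rfl)
    · exact ha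
    · exact hb
  have h3 := Set.ncard_le_ncard this (Set.toFinite _)
  rw [Set.ncard_pair hne] at h3
  unfold deg at hx
  omega

lemma eq_or_eq_of_deg_le_two {L : SimpleGraph V} {x a b w : V} (hx : deg L x ≤ 2)
    (ha : L.Adj x a) (hb : L.Adj x b) (hab : a ≠ b) (hw : L.Adj x w) : w = a ∨ w = b := by
  by_contra hne
  push Not at hne
  have : ({w, a, b} : Set V) ⊆ L.neighborSet x := by
    rintro z (rfl | rfl | rfl)
    · exact hw
    · exact ha
    · exact hb
  have h3 := Set.ncard_le_ncard this (Set.toFinite _)
  have h4 : ({w, a, b} : Set V).ncard = 3 := by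
    rw [Set.ncard_eq_three]
    exact ⟨w, a, b, hne.1, hne.2, hab, rfl⟩
  rw [h4] at h3
  unfold deg at hx
  omega

lemma two_le_deg {L : SimpleGraph V} {x a b : V} (ha : L.Adj x a) (hb : L.Adj x b)
    (hab : a ≠ b) : 2 ≤ deg L x := by
  by_contra h
  exact hab (eq_of_deg_le_one (by omega) ha hb)

lemma deg_pos {L : SimpleGraph V} {x a : V} (ha : L.Adj x a) : 1 ≤ deg L x := by
  have : 0 < (L.neighborSet x).ncard := by
    rw [Set.ncard_pos (Set.toFinite _)]
    exact ⟨a, ha⟩
  exact this

lemma not_adj_of_deg_zero {L : SimpleGraph V} {x a : V} (h : deg L x = 0) : ¬ L.Adj x a := by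
  intro ha
  have := deg_pos ha
  omega

/-- Along a path between two vertices of degree at most one in a graph of maximum degree at most
two, all edges at path vertices are path edges. -/
lemma edges_closed {L : SimpleGraph V} (h2 : ∀ v, deg L v ≤ 2) {x y : V} (hx : deg L x ≤ 1)
    (hy : deg L y ≤ 1) (hxy : x ≠ y) (p : L.Walk x y) (hp : p.IsPath) {u w : V}
    (hu : u ∈ p.support) (huw : L.Adj u w) : s(u, w) ∈ p.edges := by
  rw [Walk.mem_support_iff_exists_getVert] at hu
  obtain ⟨i, rfl, hi⟩ := hu
  have hlen : 0 < p.length := by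
    rcases Nat.eq_zero_or_pos p.length with h | h
    · exact absurd (Walk.eq_of_length_eq_zero h) hxy
    · exact h
  rcases Nat.eq_zero_or_pos i with h0 | h0
  · subst h0
    have hadj := p.adj_getVert_succ hlen
    have hw : w = p.getVert (0 + 1) := by
      refine eq_of_deg_le_one ?_ huw hadj
      rw [Walk.getVert_zero]
      exact hx
    rw [hw]
    exact getVert_edge_mem p 0 hlen
  · obtain ⟨j, rfl⟩ : ∃ j, i = j + 1 := ⟨i - 1, by omega⟩
    have hadj := (p.adj_getVert_succ (i := j) (by omega)).symm
    have hmem := getVert_edge_mem p j (by omega)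
    rw [Sym2.eq_swap] at hmem
    rcases Nat.lt_or_ge (j + 1) p.length with h1 | h1
    · have hadj' := p.adj_getVert_succ h1
      have hne : p.getVert j ≠ p.getVert (j + 1 + 1) := by
        intro h
        have := hp.getVert_injOn (by simp; omega) (by simp; omega) h
        omega
      rcases eq_or_eq_of_deg_le_two (h2 _) hadj hadj' hne huw with rfl | rfl
      · exact hmem
      · exact getVert_edge_mem p (j + 1) h1
    · have hl : j + 1 = p.length := by omega
      have hw : w = p.getVert j := by
        refine eq_of_deg_le_one ?_ huw hadj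
        rw [hl, Walk.getVert_length]
        exact hy
      rw [hw]
      exact hmem

lemma support_closed {L : SimpleGraph V} (h2 : ∀ v, deg L v ≤ 2) {x y : V} (hx : deg L x ≤ 1)
    (hy : deg L y ≤ 1) (hxy : x ≠ y) (p : L.Walk x y) (hp : p.IsPath) :
    ∀ {u z : V} (_ : L.Walk u z), u ∈ p.support → z ∈ p.support := by
  intro u z q
  induction q with
  | nil => exact id
  | cons h _ ih =>
    intro hu
    exact ih (Walk.snd_mem_support_of_mem_edges p (edges_closed h2 hx hy hxy p hp hu h))

/-- Three distinct vertices of degree at most one in the same component of a graph of maximum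
degree at most two: impossible. -/
lemma no_three_ends {L : SimpleGraph V} (h2 : ∀ v, deg L v ≤ 2) {x y z : V} (hx : deg L x ≤ 1)
    (hy : deg L y ≤ 1) (hz : deg L z ≤ 1) (hxy : x ≠ y) (hxz : x ≠ z) (hyz : y ≠ z)
    (h1 : L.Reachable x y) (h3 : L.Reachable x z) : False := by
  obtain ⟨p, hp⟩ := h1.exists_isPath
  obtain ⟨q⟩ := h3
  have hz' := support_closed h2 hx hy hxy p hp q p.start_mem_support
  rw [Walk.mem_support_iff_exists_getVert] at hz'
  obtain ⟨i, rfl, hi⟩ := hz'
  rcases Nat.eq_zero_or_pos i with h0 | h0
  · subst h0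
    simp at hxz
  · obtain ⟨j, rfl⟩ : ∃ j, i = j + 1 := ⟨i - 1, by omega⟩
    rcases Nat.lt_or_ge (j + 1) p.length with h1 | h1
    · have hne : p.getVert j ≠ p.getVert (j + 1 + 1) := by
        intro h
        have := hp.getVert_injOn (by simp; omega) (by simp; omega) h
        omega
      have := two_le_deg (p.adj_getVert_succ (i := j) (by omega)).symm
        (p.adj_getVert_succ h1) hne
      omega
    · have hl : j + 1 = p.length := by omega
      rw [hl, Walk.getVert_length] at hyz
      exact hyz rfl

/-- A finite acyclic graph with an edge has a vertex of degree one. -/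
lemma exists_deg_one {L : SimpleGraph V} (hL : L.IsAcyclic) {a b : V} (hab : L.Adj a b) :
    ∃ v, deg L v = 1 := by
  classical
  have : Nonempty V := ⟨a⟩
  have : Finite L.edgeSet := Set.toFinite _
  obtain ⟨u, v, p, hp, hmax⟩ := Walk.exists_isPath_forall_isPath_length_le_length L
  have hnil : ¬ p.Nil := by
    intro h
    have h1 := hmax a b (Walk.cons hab Walk.nil) (by simp [hab.ne])
    rw [Walk.nil_iff_length_eq.mp h] at h1
    simp at h1
  refine ⟨u, ?_⟩
  unfold deg
  rw [Set.ncard_eq_one]
  refine ⟨p.snd, ?_⟩
  ext w
  constructor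
  · intro hadj
    have hadj' : L.Adj u w := hadj
    apply hL.eq_snd_of_adj_start hp hadj'
    have : ¬(p.cons hadj'.symm).IsPath := by
      intro h
      have := hmax _ _ _ h
      rw [Walk.length_cons] at this
      omega
    by_contra hw
    exact this (hp.cons hw)
  · rintro rfl
    exact p.adj_snd hnil

lemma no_edge_of_even {L : SimpleGraph V} (hL : L.IsAcyclic) (he : ∀ v, Even (deg L v)) {a b : V} :
    ¬ L.Adj a b := by
  intro hab
  obtain ⟨v, hv⟩ := exists_deg_one hL hab
  have := he v
  rw [hv] at this
  exact absurd this (by decide)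

lemma deg_sup_edge_left {L : SimpleGraph V} {x y : V} (hxy : x ≠ y) (hn : ¬ L.Adj x y) :
    deg (L ⊔ edge x y) x = deg L x + 1 := by
  have : (L ⊔ edge x y).neighborSet x = insert y (L.neighborSet x) := by
    ext w
    simp only [mem_neighborSet, sup_adj, edge_adj, Set.mem_insert_iff]
    constructor
    · rintro (h | ⟨(⟨_, rfl⟩ | ⟨h1, h2⟩), _⟩)
      · exact Or.inr h
      · exact Or.inl rfl
      · exact absurd (h2.symm ▸ h1 : x = y) hxy
    · rintro (rfl | h)
      · exact Or.inr ⟨Or.inl ⟨by trivial, rfl⟩, hxy⟩
      · exact Or.inl h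
  unfold deg
  rw [this, Set.ncard_insert_of_notMem (by simpa using hn) (Set.toFinite _)]

lemma deg_sup_edge_right {L : SimpleGraph V} {x y : V} (hxy : x ≠ y) (hn : ¬ L.Adj x y) :
    deg (L ⊔ edge x y) y = deg L y + 1 := by
  rw [edge_comm]
  exact deg_sup_edge_left hxy.symm (fun h => hn h.symm)

omit [Finite V] in
lemma deg_sup_edge_other {L : SimpleGraph V} {x y v : V} (hx : v ≠ x) (hy : v ≠ y) :
    deg (L ⊔ edge x y) v = deg L v := by
  have : (L ⊔ edge x y).neighborSet v = L.neighborSet v := by
    ext w
    simp only [mem_neighborSet, sup_adj, edge_adj]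
    constructor
    · rintro (h | ⟨(⟨h, _⟩ | ⟨h, _⟩), _⟩)
      · exact h
      · exact absurd h hx
      · exact absurd h hy
    · exact Or.inl
  unfold deg
  rw [this]

lemma deg_le_deg {L M : SimpleGraph V} (h : L ≤ M) (v : V) : deg L v ≤ deg M v :=
  Set.ncard_le_ncard (fun _ hw => h hw) (Set.toFinite _)

omit [Finite V] in
lemma deg_sup_le (L M : SimpleGraph V) (v : V) : deg (L ⊔ M) v ≤ deg L v + deg M v := by
  have : (L ⊔ M).neighborSet v = L.neighborSet v ∪ M.neighborSet v := by
    ext w
    simp
  unfold deg
  rw [this]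
  exact Set.ncard_union_le _ _

lemma deg_sup_eq {L M : SimpleGraph V} {v : V} (h : ∀ w, L.Adj v w → ¬ M.Adj v w) :
    deg (L ⊔ M) v = deg L v + deg M v := by
  have : (L ⊔ M).neighborSet v = L.neighborSet v ∪ M.neighborSet v := by
    ext w
    simp
  unfold deg
  rw [this]
  refine Set.ncard_union_eq ?_ (Set.toFinite _) (Set.toFinite _)
  rw [Set.disjoint_left]
  exact h

/-- A linear forest with exactly two odd vertices is a path. -/
lemma exists_path_of_two_odd {L : SimpleGraph V} (hL : L.IsAcyclic) (h2 : ∀ v, deg L v ≤ 2)
    {x y : V} (hxy : x ≠ y) (hodd : ∀ v, Odd (deg L v) ↔ v = x ∨ v = y) :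
    ∃ p : L.Walk x y, p.IsPath ∧ ∀ e, e ∈ p.edges ↔ e ∈ L.edgeSet := by
  classical
  have hx : deg L x = 1 := by
    have h1 := (hodd x).mpr (Or.inl rfl)
    have := h2 x
    interval_cases h : deg L x
    · simp at h1
    · rfl
    · exact absurd h1 (by decide)
  have hy : deg L y = 1 := by
    have h1 := (hodd y).mpr (Or.inr rfl)
    have := h2 y
    interval_cases h : deg L y
    · simp at h1
    · rfl
    · exact absurd h1 (by decide)
  have hreach : L.Reachable x y := by
    by_contra hn
    have hnadj : ¬ L.Adj x y := fun h => hn h.reachable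
    have hac := hL.sup_edge_of_not_reachable hn
    refine no_edge_of_even hac ?_ (a := x) (b := y) ?_
    · intro v
      by_cases hvx : v = x
      · subst hvx
        rw [deg_sup_edge_left hxy hnadj, hx]
        decide
      · by_cases hvy : v = y
        · subst hvy
          rw [deg_sup_edge_right hxy hnadj, hy]
          decide
        · rw [deg_sup_edge_other hvx hvy]
          rw [← Nat.not_odd_iff_even, hodd]
          tauto
    · rw [sup_adj, edge_adj]
      exact Or.inr ⟨Or.inl ⟨rfl, rfl⟩, hxy⟩
  obtain ⟨p, hp⟩ := hreach.exists_isPath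
  refine ⟨p, hp, fun e => ⟨fun he => p.edges_subset_edgeSet he, fun he => ?_⟩⟩
  by_contra hne
  have key := fun u w => edges_closed (u := u) (w := w) h2 hx.le hy.le hxy p hp
  set L' := L.deleteEdges {e | e ∈ p.edges} with hL'
  have hac : L'.IsAcyclic := hL.anti (deleteEdges_le _)
  have hdeg : ∀ v, Even (deg L' v) := by
    intro v
    by_cases hv : v ∈ p.support
    · have : deg L' v = 0 := by
        unfold deg
        rw [Set.ncard_eq_zero (Set.toFinite _)]
        ext w
        simp only [mem_neighborSet, Set.mem_empty_iff_false, iff_false]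
        intro h
        rw [hL', deleteEdges_adj] at h
        exact h.2 (key v w hv h.1)
      rw [this]
      simp
    · have : deg L' v = deg L v := by
        unfold deg
        congr 1
        ext w
        simp only [mem_neighborSet]
        rw [hL', deleteEdges_adj]
        constructor
        · exact fun h => h.1
        · intro h
          exact ⟨h, fun h' => hv (Walk.fst_mem_support_of_mem_edges p h')⟩
      rw [this, ← Nat.not_odd_iff_even, hodd]
      rintro (rfl | rfl)
      · exact hv p.start_mem_support
      · exact hv p.end_mem_support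
  induction e using Sym2.ind with
  | _ a b =>
    refine no_edge_of_even hac hdeg (a := a) (b := b) ?_
    rw [hL', deleteEdges_adj]
    exact ⟨he, hne⟩

end Fin

end Pool.Agent.J6H93.PathCover
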