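import Pool.Agent.J6H93.PathCover.LinForest

/-!
# Linking three linear forests into three paths

Three linear forests with even total degree at each vertex, such that the number of vertices with
odd degree in the first two is odd, have the same symmetric difference as three paths.
-/

namespace Pool.Agent.J6H93.PathCover

open SimpleGraph

variable {V : Type*} [Finite V]

/-- Three linear forests with even total degree at each vertex. -/
def Good (L : Fin 3 → SimpleGraph V) : Prop :=
  (∀ i, (L i).IsAcyclic) ∧ (∀ i v, deg (L i) v ≤ 2) ∧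
    ∀ v, Even (deg (L 0) v + deg (L 1) v + deg (L 2) v)

/-- Vertices with odd degree in the two colours other than `k`. -/
def T (L : Fin 3 → SimpleGraph V) (k : Fin 3) : Set V := {v | ∀ i, i ≠ k → Odd (deg (L i) v)}

open Classical in
/-- In how many of the graphs is `ab` an edge. -/
noncomputable def cnt (L : Fin 3 → SimpleGraph V) (a b : V) : ℕ :=
  (Finset.univ.filter (fun i => (L i).Adj a b)).card

lemma even_of_mem_T {L : Fin 3 → SimpleGraph V} (hL : Good L) {k : Fin 3} {v : V}
    (hv : v ∈ T L k) : Even (deg (L k) v) := by
  have h := hL.2.2 v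
  have h' : ∀ i, i ≠ k → Odd (deg (L i) v) := hv
  fin_cases k
  · have h1 := h' 1 (by decide)
    have h2 := h' 2 (by decide)
    simp only [Fin.zero_eta, Fin.isValue]
    grind
  · have h1 := h' 0 (by decide)
    have h2 := h' 2 (by decide)
    simp only [Fin.mk_one, Fin.isValue]
    grind
  · have h1 := h' 0 (by decide)
    have h2 := h' 1 (by decide)
    simp only [Fin.reduceFinMk, Fin.isValue]
    grind

lemma deg_eq_one_of_mem_T {L : Fin 3 → SimpleGraph V} (hL : Good L) {k i : Fin 3} {v : V}
    (hv : v ∈ T L k) (hi : i ≠ k) : deg (L i) v = 1 := by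
  have h1 : Odd (deg (L i) v) := hv i hi
  have h2 := hL.2.1 i v
  interval_cases h : deg (L i) v
  · simp at h1
  · rfl
  · exact absurd h1 (by decide)

/-- Add the edge `xy` to the two forests other than `k`. -/
def linkAt (L : Fin 3 → SimpleGraph V) (k : Fin 3) (x y : V) : Fin 3 → SimpleGraph V :=
  fun i => if i = k then L i else L i ⊔ edge x y

lemma deg_linkAt {L : Fin 3 → SimpleGraph V} {k : Fin 3} {x y : V} (hxy : x ≠ y)
    (hn : ∀ i, i ≠ k → ¬ (L i).Reachable x y) (i : Fin 3) (v : V) [DecidableEq V] :
    deg (linkAt L k x y i) v = deg (L i) v + if i ≠ k ∧ (v = x ∨ v = y) then 1 else 0 := by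
  unfold linkAt
  by_cases hi : i = k
  · simp [hi]
  · have hna : ¬ (L i).Adj x y := fun h => hn i hi h.reachable
    rw [if_neg hi]
    by_cases hx : v = x
    · subst hx
      rw [deg_sup_edge_left hxy hna]
      simp [hi]
    · by_cases hy : v = y
      · subst hy
        rw [deg_sup_edge_right hxy hna]
        simp [hi]
      · rw [deg_sup_edge_other hx hy]
        simp [hx, hy]

lemma linkAt_good {L : Fin 3 → SimpleGraph V} (hL : Good L) {k : Fin 3} {x y : V} (hxy : x ≠ y)
    (hx : x ∈ T L k) (hy : y ∈ T L k) (hn : ∀ i, i ≠ k → ¬ (L i).Reachable x y) :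
    Good (linkAt L k x y) := by
  classical
  refine ⟨?_, ?_, ?_⟩
  · intro i
    unfold linkAt
    by_cases hi : i = k
    · rw [if_pos hi]
      exact hL.1 i
    · rw [if_neg hi]
      exact (hL.1 i).sup_edge_of_not_reachable (hn i hi)
  · intro i v
    rw [deg_linkAt hxy hn]
    by_cases h : i ≠ k ∧ (v = x ∨ v = y)
    · rw [if_pos h]
      rcases h.2 with rfl | rfl
      · rw [deg_eq_one_of_mem_T hL hx h.1]
      · rw [deg_eq_one_of_mem_T hL hy h.1]
    · rw [if_neg h]
      exact hL.2.1 i v
  · intro v
    rw [deg_linkAt hxy hn, deg_linkAt hxy hn, deg_linkAt hxy hn]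
    have h := hL.2.2 v
    by_cases hv : v = x ∨ v = y
    · fin_cases k <;> simp [hv] <;> grind
    · simp [hv]
      exact h

lemma T_linkAt_self {L : Fin 3 → SimpleGraph V} {k : Fin 3} {x y : V} (hxy : x ≠ y)
    (hx : x ∈ T L k) (hy : y ∈ T L k) (hn : ∀ i, i ≠ k → ¬ (L i).Reachable x y) :
    T (linkAt L k x y) k = T L k \ {x, y} := by
  classical
  obtain ⟨j, hj⟩ : ∃ j : Fin 3, j ≠ k := by
    fin_cases k
    · exact ⟨1, by decide⟩
    · exact ⟨0, by decide⟩
    · exact ⟨0, by decide⟩
  ext v
  simp only [T, Set.mem_setOf_eq, Set.mem_diff, Set.mem_insert_iff, Set.mem_singleton_iff]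
  constructor
  · intro h
    by_cases hv : v = x ∨ v = y
    · exfalso
      have h1 := h j hj
      rw [deg_linkAt hxy hn, if_pos ⟨hj, hv⟩] at h1
      have h2 : Odd (deg (L j) v) := by
        rcases hv with rfl | rfl
        · exact hx j hj
        · exact hy j hj
      grind
    · refine ⟨fun i hi => ?_, hv⟩
      have h1 := h i hi
      rw [deg_linkAt hxy hn, if_neg (fun h' => hv h'.2)] at h1
      simpa using h1
  · rintro ⟨h, hv⟩ i hi
    rw [deg_linkAt hxy hn, if_neg (fun h' => hv h'.2)]
    simpa using h i hi

lemma T_linkAt_other {L : Fin 3 → SimpleGraph V} (hL : Good L) {k m : Fin 3} (hm : m ≠ k)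
    {x y : V} (hxy : x ≠ y)
    (hx : x ∈ T L k) (hy : y ∈ T L k) (hn : ∀ i, i ≠ k → ¬ (L i).Reachable x y) :
    T (linkAt L k x y) m = T L m := by
  classical
  ext v
  simp only [T, Set.mem_setOf_eq]
  by_cases hv : v = x ∨ v = y
  · have he : Even (deg (L k) v) := by
      rcases hv with rfl | rfl
      · exact even_of_mem_T hL hx
      · exact even_of_mem_T hL hy
    constructor
    · intro h
      have h1 := h k hm.symm
      rw [deg_linkAt hxy hn] at h1
      simp at h1
      grind
    · intro h
      have h1 := h k hm.symm
      grind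
  · refine forall_congr' fun i => imp_congr_right fun hi => ?_
    rw [deg_linkAt hxy hn, if_neg (fun h' => hv h'.2)]
    simp

lemma cnt_linkAt {L : Fin 3 → SimpleGraph V} {k : Fin 3} {x y : V} (hxy : x ≠ y)
    (hn : ∀ i, i ≠ k → ¬ (L i).Reachable x y) (a b : V) :
    (Odd (cnt (linkAt L k x y) a b) ↔ Odd (cnt L a b)) := by
  classical
  have hcnt : ∀ M : Fin 3 → SimpleGraph V, cnt M a b =
      (if (M 0).Adj a b then 1 else 0) + (if (M 1).Adj a b then 1 else 0) +
        (if (M 2).Adj a b then 1 else 0) := by
    intro M
    unfold cnt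
    rw [Finset.card_filter, Fin.sum_univ_three]
  have hadj : ∀ i, (linkAt L k x y i).Adj a b ↔
      (L i).Adj a b ∨ (i ≠ k ∧ ((a = x ∧ b = y) ∨ (a = y ∧ b = x))) := by
    intro i
    unfold linkAt
    by_cases hi : i = k
    · simp [hi]
    · rw [if_neg hi, sup_adj, edge_adj]
      constructor
      · rintro (h | h)
        · exact Or.inl h
        · exact Or.inr ⟨hi, h.1⟩
      · rintro (h | ⟨_, h⟩)
        · exact Or.inl h
        · refine Or.inr ⟨h, ?_⟩
          rcases h with ⟨rfl, rfl⟩ | ⟨rfl, rfl⟩
          · exact hxy
          · exact hxy.symm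
  rw [hcnt, hcnt, hadj, hadj, hadj]
  by_cases hab : (a = x ∧ b = y) ∨ (a = y ∧ b = x)
  · have hna : ∀ i, i ≠ k → ¬ (L i).Adj a b := by
      intro i hi h
      rcases hab with ⟨rfl, rfl⟩ | ⟨rfl, rfl⟩
      · exact hn i hi h.reachable
      · exact hn i hi h.reachable.symm
    fin_cases k
    · have h1 := hna 1 (by decide)
      have h2 := hna 2 (by decide)
      simp [hab, h1, h2]
      grind
    · have h1 := hna 0 (by decide)
      have h2 := hna 2 (by decide)
      simp [hab, h1, h2]
      grind
    · have h1 := hna 0 (by decide)
      have h2 := hna 1 (by decide)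
      simp [hab, h1, h2]
      grind
  · simp [hab]

/-- Linking: reduce to exactly one vertex of each type. -/
lemma exists_linked (n : ℕ) : ∀ (L : Fin 3 → SimpleGraph V), Good L →
    (∀ k, Odd (T L k).ncard) → (T L 0).ncard + (T L 1).ncard + (T L 2).ncard ≤ n →
    ∃ L' : Fin 3 → SimpleGraph V, Good L' ∧ (∀ k, (T L' k).ncard = 1) ∧
      ∀ a b, (Odd (cnt L' a b) ↔ Odd (cnt L a b)) := by
  induction n with
  | zero =>
    intro L _ ho hN
    have h0 := ho 0
    have : (T L 0).ncard = 0 := by omega
    rw [this] at h0
    simp at h0
  | succ n ih =>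
    intro L hL ho hN
    by_cases hall : ∀ k, (T L k).ncard = 1
    · exact ⟨L, hL, hall, fun _ _ => Iff.rfl⟩
    · push Not at hall
      obtain ⟨k, hk⟩ := hall
      have hk3 : 2 < (T L k).ncard := by
        have := ho k
        by_contra hlt
        interval_cases h : (T L k).ncard
        · simp at this
        · exact hk rfl
        · exact absurd this (by decide)
      obtain ⟨x, hx, y, hy, z, hz, hxy, hxz, hyz⟩ := (Set.two_lt_ncard (Set.toFinite _)).mp hk3
      obtain ⟨a, ha, b, hb, hab, hn⟩ : ∃ a ∈ T L k, ∃ b ∈ T L k, a ≠ b ∧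
          ∀ i, i ≠ k → ¬ (L i).Reachable a b := by
        by_contra hcon
        push Not at hcon
        obtain ⟨m1, hm1, r1⟩ := hcon x hx y hy hxy
        obtain ⟨m2, hm2, r2⟩ := hcon x hx z hz hxz
        obtain ⟨m3, hm3, r3⟩ := hcon y hy z hz hyz
        have d : ∀ m, m ≠ k → ∀ v ∈ T L k, deg (L m) v ≤ 1 :=
          fun m hm v hv => (deg_eq_one_of_mem_T hL hv hm).le
        have : m1 = m2 ∨ m1 = m3 ∨ m2 = m3 := by
          revert hm1 hm2 hm3
          clear * -
          revert m1 m2 m3 k
          decide
        rcases this with rfl | rfl | rfl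
        · exact no_three_ends (hL.2.1 m1) (d _ hm1 x hx) (d _ hm1 y hy) (d _ hm1 z hz) hxy hxz hyz
            r1 r2
        · exact no_three_ends (hL.2.1 m1) (d _ hm1 y hy) (d _ hm1 x hx) (d _ hm1 z hz) hxy.symm
            hyz hxz r1.symm r3
        · exact no_three_ends (hL.2.1 m2) (d _ hm2 z hz) (d _ hm2 x hx) (d _ hm2 y hy) hxz.symm
            hyz.symm hxy r2.symm r3.symm
      have hcardk : (T (linkAt L k a b) k).ncard + 2 = (T L k).ncard := by
        rw [T_linkAt_self hab ha hb hn]
        have hsub : ({a, b} : Set V) ⊆ T L k := by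
          rintro w (rfl | rfl)
          · exact ha
          · exact hb
        have := Set.ncard_diff_add_ncard_of_subset hsub (Set.toFinite _)
        rw [Set.ncard_pair hab] at this
        exact this
      have hother : ∀ m, m ≠ k → (T (linkAt L k a b) m).ncard = (T L m).ncard :=
        fun m hm => by rw [T_linkAt_other hL hm hab ha hb hn]
      obtain ⟨L', h1, h2, h3⟩ := ih (linkAt L k a b) (linkAt_good hL hab ha hb hn) (by
        intro m
        by_cases hm : m = k
        · subst hm
          have := ho m
          rw [← hcardk] at this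
          grind
        · rw [hother m hm]
          exact ho m) (by
        fin_cases k
        · have h1 := hother 1 (by decide)
          have h2 := hother 2 (by decide)
          simp only [Fin.zero_eta, Fin.isValue] at *
          omega
        · have h1 := hother 0 (by decide)
          have h2 := hother 2 (by decide)
          simp only [Fin.mk_one, Fin.isValue] at *
          omega
        · have h1 := hother 0 (by decide)
          have h2 := hother 1 (by decide)
          simp only [Fin.reduceFinMk, Fin.isValue] at *
          omega)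
      exact ⟨L', h1, h2, fun a' b' => (h3 a' b').trans (cnt_linkAt hab hn a' b')⟩

/-- The number of odd vertices is even. -/
lemma even_ncard_odd (L : SimpleGraph V) : Even ({v | Odd (deg L v)} : Set V).ncard := by
  classical
  have : Fintype V := Fintype.ofFinite V
  have h := L.even_card_odd_degree_vertices
  have h2 : ∀ v, deg L v = L.degree v := by
    intro v
    unfold deg
    rw [Set.ncard_eq_toFinset_card', ← SimpleGraph.card_neighborFinset_eq_degree]
    rfl
  have h3 : ({v | Odd (deg L v)} : Set V).ncard = (Finset.univ.filter (fun v => Odd (L.degree v))).card := by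
    rw [Set.ncard_eq_toFinset_card']
    congr 1
    ext v
    simp [h2]
  rw [h3]
  exact h

lemma odd_ncard_T {L : Fin 3 → SimpleGraph V} (hL : Good L) (h : Odd (T L 2).ncard) (k : Fin 3) :
    Odd (T L k).ncard := by
  have key : ∀ i j k : Fin 3, i ≠ j → i ≠ k → j ≠ k →
      ({v | Odd (deg (L i) v)} : Set V).ncard = (T L j).ncard + (T L k).ncard := by
    intro i j k hij hik hjk
    have hun : ({v | Odd (deg (L i) v)} : Set V) = T L j ∪ T L k := by
      ext v
      simp only [Set.mem_setOf_eq, Set.mem_union]
      constructor
      · intro hi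
        by_cases hj : Odd (deg (L j) v)
        · right
          intro m hm
          have : m = i ∨ m = j := by
            revert hm hij hik hjk
            clear * -
            revert i j k m
            decide
          rcases this with rfl | rfl
          · exact hi
          · exact hj
        · left
          intro m hm
          have : m = i ∨ m = k := by
            revert hm hij hik hjk
            clear * -
            revert i j k m
            decide
          rcases this with rfl | rfl
          · exact hi
          · have h3 : Even (deg (L i) v + deg (L j) v + deg (L m) v) := by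
              have h3 := hL.2.2 v
              revert hij hik hjk
              fin_cases i <;> fin_cases j <;> fin_cases m <;> simp <;> grind
            grind
      · rintro (h1 | h1)
        · exact h1 i hij
        · exact h1 i hik
    rw [hun]
    refine Set.ncard_union_eq ?_ (Set.toFinite _) (Set.toFinite _)
    rw [Set.disjoint_left]
    intro v h1 h2
    have h3 := even_of_mem_T hL h1
    have h4 : Odd (deg (L j) v) := h2 j hjk
    grind
  fin_cases k
  · have h1 := key 1 0 2 (by decide) (by decide) (by decide)
    have h2 := even_ncard_odd (L 1)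
    rw [h1] at h2
    simp only [Fin.zero_eta, Fin.isValue]
    grind
  · have h1 := key 0 1 2 (by decide) (by decide) (by decide)
    have h2 := even_ncard_odd (L 0)
    rw [h1] at h2
    simp only [Fin.mk_one, Fin.isValue]
    grind
  · exact h

/-- The linking lemma. -/
theorem exists_paths {L : Fin 3 → SimpleGraph V} (hL : Good L) (h : Odd (T L 2).ncard) :
    ∃ (a b : Fin 3 → V) (P : ∀ i, (⊤ : SimpleGraph V).Walk (a i) (b i)),
      (∀ i, (P i).IsPath) ∧ ∀ x y, (Odd ({i | s(x, y) ∈ (P i).edges} : Set (Fin 3)).ncard ↔
        Odd (cnt L x y)) := by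
  classical
  obtain ⟨L', h1, h2, h3⟩ := exists_linked _ L hL (odd_ncard_T hL h) le_rfl
  have hp : ∀ i, ∃ (a b : V) (p : (⊤ : SimpleGraph V).Walk a b), p.IsPath ∧
      ∀ e, e ∈ p.edges ↔ e ∈ (L' i).edgeSet := by
    intro i
    obtain ⟨j, k, hij, hik, hjk, hall⟩ : ∃ j k : Fin 3, i ≠ j ∧ i ≠ k ∧ j ≠ k ∧
        ∀ m, m = i ∨ m = j ∨ m = k := by
      clear * -
      revert i
      decide
    obtain ⟨x, hx⟩ := Set.ncard_eq_one.mp (h2 j)
    obtain ⟨y, hy⟩ := Set.ncard_eq_one.mp (h2 k)
    have hxm : x ∈ T L' j := by rw [hx]; rfl
    have hym : y ∈ T L' k := by rw [hy]; rfl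
    have hxy : x ≠ y := by
      rintro rfl
      have h4 := even_of_mem_T h1 hxm
      have h5 : Odd (deg (L' j) x) := hym j hjk
      grind
    have hodd : ∀ v, Odd (deg (L' i) v) ↔ v = x ∨ v = y := by
      intro v
      constructor
      · intro hi
        by_cases hj : Odd (deg (L' j) v)
        · right
          have : v ∈ T L' k := by
            intro m hm
            rcases hall m with rfl | rfl | rfl
            · exact hi
            · exact hj
            · exact absurd rfl hm
          rw [hy] at this
          exact this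
        · left
          have : v ∈ T L' j := by
            intro m hm
            rcases hall m with rfl | rfl | rfl
            · exact hi
            · exact absurd rfl hm
            · have h3 : Even (deg (L' i) v + deg (L' j) v + deg (L' m) v) := by
                have h3 := h1.2.2 v
                revert hij hik hjk
                fin_cases i <;> fin_cases j <;> fin_cases m <;> simp <;> grind
              grind
          rw [hx] at this
          exact this
      · rintro (rfl | rfl)
        · exact hxm i hij
        · exact hym i hik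
    obtain ⟨p, hp, he⟩ := exists_path_of_two_odd (h1.1 i) (h1.2.1 i) hxy hodd
    refine ⟨x, y, p.mapLe le_top, ?_, ?_⟩
    · rw [Walk.mapLe_isPath]
      exact hp
    · intro e
      rw [Walk.edges_mapLe_eq_edges]
      exact he e
  choose a b P hP hE using hp
  refine ⟨a, b, P, hP, ?_⟩
  intro x y
  rw [← h3]
  have : ({i | s(x, y) ∈ (P i).edges} : Set (Fin 3)).ncard = cnt L' x y := by
    rw [Set.ncard_eq_toFinset_card']
    unfold cnt
    congr 1
    ext i
    simp [hE]
  rw [this]

end Pool.Agent.J6H93.PathCover
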