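import Pool.Agent.J6H93.PathCover.Break

/-!
# Three paths suffice

Every Eulerian graph of maximum degree four has a path odd-cover with three paths.
-/

namespace Pool.Agent.J6H93.PathCover

open SimpleGraph

variable {V : Type*} [Finite V]

/-- A cycle of `τ` with arcs of both kinds with respect to the set `B`. -/
def Flex (τ : Equiv.Perm V) (B : V → Prop) : Prop :=
  ∃ ye yo, τ.SameCycle ye yo ∧ τ ye ≠ ye ∧ (B ye ↔ B (τ ye)) ∧ ¬ (B yo ↔ B (τ yo))

omit [Finite V] in
lemma flex_or {σ τ : Equiv.Perm V} (hσ : No2 σ) (hτ : No2 τ) {v : V} (hσv : σ v ≠ v)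
    (hτv : τ v ≠ v) {B B' : V → Prop} (h1 : B v) (h2 : ¬ B' v) (h3 : ¬ B (σ (σ v)))
    (h4 : B' (σ (σ v))) (h5 : ∀ u, u ≠ v → u ≠ σ (σ v) → (B u ↔ B' u)) :
    Flex τ B ∨ Flex τ B' := by
  classical
  by_contra hcon
  push Not at hcon
  obtain ⟨n1, n2⟩ := hcon
  have key : ∀ C : V → Prop, ¬ Flex τ C → ∀ y y', τ.SameCycle y y' → τ y ≠ y →
      ((C y ↔ C (τ y)) ↔ (C y' ↔ C (τ y'))) := by
    intro C hC y y' hyy hy
    by_contra hne
    by_cases h : C y ↔ C (τ y)
    · by_cases h' : C y' ↔ C (τ y')
      · exact hne ⟨fun _ => h', fun _ => h⟩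
      · exact hC ⟨y, y', hyy, hy, h, h'⟩
    · by_cases h' : C y' ↔ C (τ y')
      · refine hC ⟨y', y, hyy.symm, ?_, h', h⟩
        exact fun h0 => hy (hyy.apply_eq_self_iff.mpr h0)
      · exact hne ⟨fun h0 => absurd h0 h, fun h0 => absurd h0 h'⟩
  set p := τ.symm v with hp
  set n := τ v with hn
  set m := τ n with hm
  set w := σ (σ v) with hw
  have hτp : τ p = v := by simp [hp]
  have hpv : p ≠ v := by
    intro h
    rw [h] at hτp
    exact hτv hτp
  have hnv : n ≠ v := hτv
  have hmv : m ≠ v := fun h => hτv (hτ v h)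
  have hpn : p ≠ n := by
    intro h
    apply hmv
    rw [hm, ← h, hτp]
  have hwv : w ≠ v := fun h => hσv (hσ v h)
  have s1 : τ.SameCycle v p := (sameCycle_symm_self τ v).symm
  have s2 : τ.SameCycle v n := sameCycle_self_apply τ v
  have a1 := key B n1 v p s1 hτv
  have a2 := key B n1 v n s2 hτv
  have b1 := key B' n2 v p s1 hτv
  have b2 := key B' n2 v n s2 hτv
  rw [hτp] at a1 b1
  change ((B v ↔ B n) ↔ (B p ↔ B v)) at a1
  change ((B v ↔ B n) ↔ (B n ↔ B m)) at a2
  change ((B' v ↔ B' n) ↔ (B' p ↔ B' v)) at b1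
  change ((B' v ↔ B' n) ↔ (B' n ↔ B' m)) at b2
  clear key s1 s2 n1 n2
  by_cases hwp : p = w
  · have e1 := h5 n hnv (fun h => hpn (hwp.trans h.symm))
    rw [← hwp] at h3 h4
    clear h5
    grind
  · by_cases hwn : n = w
    · have e1 := h5 p hpv hwp
      rw [← hwn] at h3 h4
      clear h5
      grind
    · have e1 := h5 p hpv hwp
      have e2 := h5 n hnv hwn
      by_cases hwm : m = w
      · rw [← hwm] at h3 h4
        clear h5
        grind
      · have e3 := h5 m hmv hwm
        clear h5
        grind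

open Classical in
/-- The number of incidences between arcs starting in `Y` and `B`. -/
noncomputable def q (τ : Equiv.Perm V) (B : V → Prop) (Y : Finset V) : ℕ :=
  ∑ y ∈ Y, ((if B y then 1 else 0) + (if B (τ y) then 1 else 0))

omit [Finite V] in
lemma ncard_eq_q {τ : Equiv.Perm V} {B : V → Prop} {Y : Finset V} (hY : PTr τ Y) :
    ({v | B v ∧ Bl τ Y v} : Set V).ncard = q τ B Y := by
  classical
  have : ({v | B v ∧ Bl τ Y v} : Set V) =
      ((Y.filter B ∪ (Y.filter (fun y => B (τ y))).image τ : Finset V) : Set V) := by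
    ext v
    simp only [Finset.coe_union, Finset.coe_filter, Finset.coe_image, Set.mem_union,
      Set.mem_ofPred_eq, Set.mem_image]
    constructor
    · rintro ⟨h1, h2 | h2⟩
      · exact Or.inl ⟨h2, h1⟩
      · exact Or.inr ⟨τ.symm v, ⟨h2, by simpa using h1⟩, by simp⟩
    · rintro (⟨h1, h2⟩ | ⟨y, ⟨h1, h2⟩, rfl⟩)
      · exact ⟨h2, Or.inl h1⟩
      · exact ⟨h2, Or.inr (by simpa using h1)⟩
  rw [this, Set.ncard_coe_finset, Finset.card_union_of_disjoint, Finset.card_image_of_injective _
    τ.injective]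
  · unfold q
    rw [Finset.sum_add_distrib, ← Finset.card_filter, ← Finset.card_filter]
  · rw [Finset.disjoint_left]
    intro y h1 h2
    rw [Finset.mem_image] at h2
    obtain ⟨y', h2, rfl⟩ := h2
    rw [Finset.mem_filter] at h1 h2
    have := hY.2 _ h2.1 _ h1.1 (sameCycle_self_apply τ y')
    exact hY.1 y' h2.1 this.symm

/-- A transversal with odd overlap. -/
lemma exists_odd_transversal {τ : Equiv.Perm V} (hτ : No2 τ) {M : SimpleGraph V}
    (hM : ∀ v, deg M v ≤ 1) (hMτ : ∀ a, ¬ M.Adj a (τ a)) {B : V → Prop}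
    (hB : ∀ v, ¬ B v → deg M v = 0) (hflex : Flex τ B) :
    ∃ Y : Finset V, Tr τ Y ∧ (M ⊔ ag τ Y).IsAcyclic ∧ Odd (q τ B Y) := by
  classical
  obtain ⟨ye, yo, hsc, hye, heven, hodd⟩ := hflex
  obtain ⟨Y, hyeY, hTr, hac⟩ := exists_transversal M hM τ hτ hMτ ye hye
  by_cases hq : Odd (q τ B Y)
  · exact ⟨Y, hTr, hac, hq⟩
  rw [Nat.not_odd_iff_even] at hq
  have hyo : τ yo ≠ yo := fun h => hye (hsc.apply_eq_self_iff.mpr h)
  set Z := Y.erase ye with hZ
  have hZY : ∀ z ∈ Z, z ∈ Y := fun z hz => Finset.mem_of_mem_erase hz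
  have hZsc : ∀ z ∈ Z, ¬ τ.SameCycle ye z := by
    intro z hz h
    exact (Finset.mem_erase.mp hz).1 (hTr.1.2 _ hyeY _ (hZY z hz) h).symm
  have hyoZ : yo ∉ Z := fun h => hZsc yo h hsc
  have hPZ : PTr τ Z := ⟨fun y hy => hTr.1.1 y (hZY y hy),
    fun y hy y' hy' h => hTr.1.2 y (hZY y hy) y' (hZY y' hy') h⟩
  have hacZ : (M ⊔ ag τ Z).IsAcyclic := by
    refine hac.anti (sup_le_sup_left ?_ _)
    intro a b hab
    rw [ag_adj] at hab ⊢
    refine ⟨hab.1, ?_⟩
    rcases hab.2 with ⟨h1, h2⟩ | ⟨h1, h2⟩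
    · exact Or.inl ⟨hZY _ h1, h2⟩
    · exact Or.inr ⟨hZY _ h1, h2⟩
  refine ⟨insert yo Z, ⟨⟨?_, ?_⟩, ?_⟩, ?_, ?_⟩
  · intro z hz
    rw [Finset.mem_insert] at hz
    rcases hz with rfl | hz
    · exact hyo
    · exact hPZ.1 z hz
  · intro z hz z' hz' hzz
    rw [Finset.mem_insert] at hz hz'
    rcases hz with rfl | hz <;> rcases hz' with rfl | hz'
    · rfl
    · exact absurd (hsc.trans hzz) (hZsc z' hz')
    · exact absurd (hsc.trans hzz.symm) (hZsc z hz)
    · exact hPZ.2 z hz z' hz' hzz
  · intro v hv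
    obtain ⟨y, hy, hvy⟩ := hTr.2 v hv
    by_cases h : y = ye
    · subst h
      exact ⟨yo, Finset.mem_insert_self _ _, hvy.trans hsc⟩
    · exact ⟨y, Finset.mem_insert_of_mem (Finset.mem_erase.mpr ⟨h, hy⟩), hvy⟩
  · rw [Finset.coe_insert, ag_insert, ← sup_assoc]
    refine hacZ.sup_edge_of_not_reachable ?_
    intro hr
    have iso : ∀ u, ¬ B u → τ.SameCycle ye u → deg (M ⊔ ag τ Z) u = 0 := by
      intro u hu hs
      have h1 := deg_sup_le M (ag τ Z) u
      rw [hB u hu, deg_ag_zero hτ (fun y hy h => hZsc y hy (hs.trans h))] at h1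
      omega
    by_cases hb : B yo
    · have hb' : ¬ B (τ yo) := fun h => hodd ⟨fun _ => h, fun _ => hb⟩
      exact hyo (isolated_reachable (iso _ hb' (hsc.trans (sameCycle_self_apply τ yo))) hr.symm)
    · exact hyo (isolated_reachable (iso _ hb hsc) hr).symm
  · have h1 : q τ B Y = ((if B ye then 1 else 0) + (if B (τ ye) then 1 else 0)) + q τ B Z := by
      unfold q
      exact (Finset.add_sum_erase Y
        (fun y => (if B y then 1 else 0) + (if B (τ y) then 1 else 0)) hyeY).symm
    have h2 : q τ B (insert yo Z) =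
        ((if B yo then 1 else 0) + (if B (τ yo) then 1 else 0)) + q τ B Z := by
      unfold q
      rw [Finset.sum_insert hyoZ]
    rw [h2]
    rw [h1] at hq
    by_cases e1 : B ye
    · have e2 := heven.mp e1
      rw [if_pos e1, if_pos e2] at hq
      by_cases e3 : B yo
      · have e4 : ¬ B (τ yo) := fun h => hodd ⟨fun _ => h, fun _ => e3⟩
        rw [if_pos e3, if_neg e4]
        grind
      · have e4 : B (τ yo) := by
          by_contra h
          exact hodd ⟨fun h' => absurd h' e3, fun h' => absurd h' h⟩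
        rw [if_neg e3, if_pos e4]
        grind
    · have e2 : ¬ B (τ ye) := fun h => e1 (heven.mpr h)
      rw [if_neg e1, if_neg e2] at hq
      by_cases e3 : B yo
      · have e4 : ¬ B (τ yo) := fun h => hodd ⟨fun _ => h, fun _ => e3⟩
        rw [if_pos e3, if_neg e4]
        grind
      · have e4 : B (τ yo) := by
          by_contra h
          exact hodd ⟨fun h' => absurd h' e3, fun h' => absurd h' h⟩
        rw [if_neg e3, if_pos e4]
        grind

/-- Choosing the first transversal so that some cycle of the second permutation is flexible. -/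
lemma exists_flex {σ τ : Equiv.Perm V} (hσ : No2 σ) (hτ : No2 τ) {v : V} (hσv : σ v ≠ v)
    (hτv : τ v ≠ v) : ∃ X : Finset V, Tr σ X ∧ Flex τ (Bl σ X) := by
  classical
  obtain ⟨X, hvX, hTr, _⟩ := exists_transversal (⊥ : SimpleGraph V) (by
    intro u
    have : (⊥ : SimpleGraph V).neighborSet u = ∅ := by
      ext w
      simp
    unfold deg
    rw [this]
    simp) σ hσ (fun a h => h.elim) v hσv
  set Z := X.erase v with hZ
  have hZX : ∀ z ∈ Z, z ∈ X := fun z hz => Finset.mem_of_mem_erase hz
  have hZsc : ∀ z ∈ Z, ¬ σ.SameCycle v z := by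
    intro z hz h
    exact (Finset.mem_erase.mp hz).1 (hTr.1.2 _ hvX _ (hZX z hz) h).symm
  have hsv : σ.SameCycle v (σ v) := sameCycle_self_apply σ v
  have hssv : σ.SameCycle v (σ (σ v)) := hsv.trans (sameCycle_self_apply σ _)
  have hsymm : σ.SameCycle v (σ.symm v) := (sameCycle_symm_self σ v).symm
  have hTr' : Tr σ (insert (σ v) Z) := by
    refine ⟨⟨?_, ?_⟩, ?_⟩
    · intro z hz
      rw [Finset.mem_insert] at hz
      rcases hz with rfl | hz
      · exact fun h => hσv (σ.injective h)
      · exact hTr.1.1 z (hZX z hz)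
    · intro z hz z' hz' hzz
      rw [Finset.mem_insert] at hz hz'
      rcases hz with rfl | hz <;> rcases hz' with rfl | hz'
      · rfl
      · exact absurd (hsv.trans hzz) (hZsc z' hz')
      · exact absurd (hsv.trans hzz.symm) (hZsc z hz)
      · exact hTr.1.2 z (hZX z hz) z' (hZX z' hz') hzz
    · intro u hu
      obtain ⟨y, hy, huy⟩ := hTr.2 u hu
      by_cases h : y = v
      · subst h
        exact ⟨σ y, Finset.mem_insert_self _ _, huy.trans hsv⟩
      · exact ⟨y, Finset.mem_insert_of_mem (Finset.mem_erase.mpr ⟨h, hy⟩), huy⟩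
  have hmemX : ∀ u, σ.SameCycle v u → u ∈ X → u = v := fun u hu hx => (hTr.1.2 _ hvX _ hx hu).symm
  have hflex := flex_or hσ hτ hσv hτv (B := Bl σ X) (B' := Bl σ (insert (σ v) Z))
    (Or.inl hvX) (by
      unfold Bl
      rw [Finset.mem_insert, Finset.mem_insert]
      rintro ((h | h) | (h | h))
      · exact hσv h.symm
      · exact hZsc v h (Equiv.Perm.SameCycle.refl _ _)
      · rw [Equiv.symm_apply_eq] at h
        exact hσv (hσ v h.symm)
      · exact hZsc _ h hsymm) (by
      unfold Bl
      rw [Equiv.symm_apply_apply]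
      rintro (h | h)
      · exact hσv (hσ v (hmemX _ hssv h))
      · exact hσv (hmemX _ hsv h)) (by
      unfold Bl
      rw [Equiv.symm_apply_apply]
      exact Or.inr (Finset.mem_insert_self _ _)) (by
      intro u hu1 hu2
      unfold Bl
      rw [Finset.mem_insert, Finset.mem_insert, hZ, Finset.mem_erase, Finset.mem_erase]
      have hsu : σ.symm u ≠ σ v := by
        intro h
        rw [Equiv.symm_apply_eq] at h
        exact hu2 h
      by_cases hu3 : u = σ v
      · subst hu3
        rw [Equiv.symm_apply_apply]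
        simp [hvX]
      · have hu4 : σ.symm u ≠ v := by
          intro h
          rw [Equiv.symm_apply_eq] at h
          exact hu3 h
        simp [hu1, hu3, hu4, hsu])
  rcases hflex with h | h
  · exact ⟨X, hTr, h⟩
  · exact ⟨_, hTr', h⟩

/-- **Main theorem.** A finite graph with all degrees even and at most four that has a vertex of
degree four has a path odd-cover with three paths. -/
theorem exists_three_paths {V : Type*} [Fintype V] (G : SimpleGraph V) [DecidableRel G.Adj]
    (he : ∀ v, Even (G.degree v)) (h4 : ∀ v, G.degree v ≤ 4) (v0 : V) (hv0 : G.degree v0 = 4) :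
    ∃ (a b : Fin 3 → V) (P : ∀ i, (⊤ : SimpleGraph V).Walk (a i) (b i)),
      (∀ i, (P i).IsPath) ∧ ∀ x y, (Odd ({i | s(x, y) ∈ (P i).edges} : Set (Fin 3)).ncard ↔
        G.Adj x y) := by
  classical
  obtain ⟨σ, τ, hst⟩ := exists_two_perms G he h4
  have hσ : No2 σ := by
    intro a ha
    by_contra hne
    have h := hst a (σ a) (Ne.symm hne)
    rw [if_pos (rfl : σ a = σ a), if_pos ha] at h
    split_ifs at h <;> omega
  have hτ : No2 τ := by
    intro a ha
    by_contra hne
    have h := hst a (τ a) (Ne.symm hne)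
    rw [if_pos (rfl : τ a = τ a), if_pos ha] at h
    split_ifs at h <;> omega
  have hmoved : σ v0 ≠ v0 ∧ τ v0 ≠ v0 := by
    have hsub : ∀ w, G.Adj v0 w → w = σ v0 ∨ w = τ v0 ∨ w = σ.symm v0 ∨ w = τ.symm v0 := by
      intro w hw
      have h := hst v0 w hw.ne
      rw [if_pos hw] at h
      by_cases h1 : σ v0 = w
      · exact Or.inl h1.symm
      · by_cases h2 : τ v0 = w
        · exact Or.inr (Or.inl h2.symm)
        · by_cases h3 : σ w = v0
          · right; right; left
            rw [Equiv.eq_symm_apply]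
            exact h3
          · by_cases h4 : τ w = v0
            · right; right; right
              rw [Equiv.eq_symm_apply]
              exact h4
            · rw [if_neg h1, if_neg h2, if_neg h3, if_neg h4] at h
              omega
    constructor
    · intro h
      have hs : σ.symm v0 = v0 := by rw [Equiv.symm_apply_eq]; exact h.symm
      have : G.neighborFinset v0 ⊆ {τ v0, τ.symm v0} := by
        intro w hw
        rw [mem_neighborFinset] at hw
        rcases hsub w hw with h1 | h1 | h1 | h1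
        · rw [h] at h1
          exact absurd h1.symm hw.ne
        · simp [h1]
        · rw [hs] at h1
          exact absurd h1.symm hw.ne
        · simp [h1]
      have hc := Finset.card_le_card this
      rw [card_neighborFinset_eq_degree, hv0] at hc
      have := Finset.card_le_two (a := τ v0) (b := τ.symm v0)
      omega
    · intro h
      have hs : τ.symm v0 = v0 := by rw [Equiv.symm_apply_eq]; exact h.symm
      have : G.neighborFinset v0 ⊆ {σ v0, σ.symm v0} := by
        intro w hw
        rw [mem_neighborFinset] at hw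
        rcases hsub w hw with h1 | h1 | h1 | h1
        · simp [h1]
        · rw [h] at h1
          exact absurd h1.symm hw.ne
        · simp [h1]
        · rw [hs] at h1
          exact absurd h1.symm hw.ne
      have hc := Finset.card_le_card this
      rw [card_neighborFinset_eq_degree, hv0] at hc
      have := Finset.card_le_two (a := σ v0) (b := σ.symm v0)
      omega
  obtain ⟨X, hX, hflex⟩ := exists_flex hσ hτ hmoved.1 hmoved.2
  have hdisj : ∀ a b, a ≠ b → (σ a = b ∨ σ b = a) → ¬ (τ a = b ∨ τ b = a) := by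
    intro a b hab h1 h2
    have h := hst a b hab
    rcases h1 with h1 | h1 <;> rcases h2 with h2 | h2 <;> rw [if_pos h1, if_pos h2] at h <;>
      split_ifs at h <;> omega
  obtain ⟨Y, hY, hac, hq⟩ := exists_odd_transversal hτ (M := ag σ X) (B := Bl σ X)
    (deg_ag_le_one hσ hX.1) (by
      intro a h
      rw [ag_adj] at h
      exact hdisj a (τ a) h.1 (by tauto) (Or.inl rfl)) (fun v hv => deg_ag_of_not_Bl hσ hv) hflex
  let L : Fin 3 → SimpleGraph V := ![ag σ (X : Set V)ᶜ, ag τ (Y : Set V)ᶜ, ag σ X ⊔ ag τ Y]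
  have hL0 : L 0 = ag σ (X : Set V)ᶜ := rfl
  have hL1 : L 1 = ag τ (Y : Set V)ᶜ := rfl
  have hL2 : L 2 = ag σ X ⊔ ag τ Y := rfl
  have hdeg2 : ∀ v, deg (L 2) v = deg (ag σ X) v + deg (ag τ Y) v := by
    intro v
    rw [hL2]
    refine deg_sup_eq ?_
    intro w h1 h2
    rw [ag_adj] at h1 h2
    exact hdisj v w h1.1 (by tauto) (by tauto)
  have hgood : Good L := by
    refine ⟨?_, ?_, ?_⟩
    · intro i
      fin_cases i
      · exact ag_compl_acyclic hX
      · exact ag_compl_acyclic hY
      · exact hac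
    · intro i v
      fin_cases i
      · exact deg_ag_le_two hσ _ v
      · exact deg_ag_le_two hτ _ v
      · have h1 := hdeg2 v
        have h2 := deg_ag_le_one hσ hX.1 v
        have h3 := deg_ag_le_one hτ hY.1 v
        change deg (L 2) v ≤ 2
        omega
    · intro v
      rw [hdeg2, hL0, hL1]
      have h1 := deg_compl hσ X v
      have h2 := deg_compl hτ Y v
      have h3 : deg (ag σ (X : Set V)ᶜ) v + deg (ag τ (Y : Set V)ᶜ) v +
          (deg (ag σ X) v + deg (ag τ Y) v) =
          (deg (ag σ (X : Set V)ᶜ) v + deg (ag σ X) v) +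
          (deg (ag τ (Y : Set V)ᶜ) v + deg (ag τ Y) v) := by ring
      rw [h3, h1, h2]
      split_ifs <;> decide
  have hpar : ∀ (f : Equiv.Perm V), No2 f → ∀ Z : Finset V, PTr f Z → ∀ v,
      (Odd (deg (ag f (Z : Set V)ᶜ) v) ↔ Bl f Z v) := by
    intro f hf Z hZ v
    have h1 := deg_compl hf Z v
    by_cases hb : Bl f Z v
    · have h2 := deg_ag_of_Bl hf hZ hb
      rw [h2] at h1
      constructor
      · exact fun _ => hb
      · intro _
        split_ifs at h1
        · have : deg (ag f (Z : Set V)ᶜ) v = 1 := by omega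
          rw [this]
          decide
    · have h2 := deg_ag_of_not_Bl hf hb
      rw [h2] at h1
      constructor
      · intro h
        rw [add_zero] at h1
        rw [h1] at h
        split_ifs at h
        · exact absurd h (by decide)
        · exact absurd h (by decide)
      · exact fun h => absurd h hb
  have hT : T L 2 = {v | Bl σ X v ∧ Bl τ Y v} := by
    ext v
    constructor
    · intro h
      exact ⟨(hpar σ hσ X hX.1 v).mp (h 0 (by decide)), (hpar τ hτ Y hY.1 v).mp (h 1 (by decide))⟩
    · rintro ⟨h1, h2⟩ i hi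
      fin_cases i
      · exact (hpar σ hσ X hX.1 v).mpr h1
      · exact (hpar τ hτ Y hY.1 v).mpr h2
      · exact absurd rfl hi
  obtain ⟨a, b, P, hP, hE⟩ := exists_paths hgood (by
    rw [hT, ncard_eq_q hY.1]
    exact hq)
  refine ⟨a, b, P, hP, ?_⟩
  intro x y
  rw [hE]
  have hcnt : cnt L x y = (if (L 0).Adj x y then 1 else 0) + (if (L 1).Adj x y then 1 else 0) +
      (if (L 2).Adj x y then 1 else 0) := by
    unfold cnt
    rw [Finset.card_filter, Fin.sum_univ_three]
  by_cases hxy : x = y
  · subst hxy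
    rw [hcnt]
    simp
  have h := hst x y hxy
  have a0 : (L 0).Adj x y ↔ (x ∉ X ∧ σ x = y) ∨ (y ∉ X ∧ σ y = x) := by
    rw [hL0, ag_adj]
    exact and_iff_right hxy
  have a1 : (L 1).Adj x y ↔ (x ∉ Y ∧ τ x = y) ∨ (y ∉ Y ∧ τ y = x) := by
    rw [hL1, ag_adj]
    exact and_iff_right hxy
  have a2 : (L 2).Adj x y ↔ ((x ∈ X ∧ σ x = y) ∨ (y ∈ X ∧ σ y = x)) ∨
      ((x ∈ Y ∧ τ x = y) ∨ (y ∈ Y ∧ τ y = x)) := by
    rw [hL2, sup_adj, ag_adj, ag_adj]
    exact or_congr (and_iff_right hxy) (and_iff_right hxy)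
  have hone : cnt L x y = if G.Adj x y then 1 else 0 := by
    rw [hcnt, h]
    have k1 : σ x = y → ¬ σ y = x := by
      intro c c'
      have := hσ x (by rw [c, c'])
      exact hxy (this.symm.trans c)
    have k2 : τ x = y → ¬ τ y = x := by
      intro c c'
      have := hτ x (by rw [c, c'])
      exact hxy (this.symm.trans c)
    have k3 := hdisj x y hxy
    by_cases c1 : σ x = y
    · have c3 := k1 c1
      have c24 := k3 (Or.inl c1)
      push Not at c24
      by_cases m : x ∈ X <;> simp [a0, a1, a2, c1, c3, c24.1, c24.2, m]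
    · by_cases c3 : σ y = x
      · have c24 := k3 (Or.inr c3)
        push Not at c24
        by_cases m : y ∈ X <;> simp [a0, a1, a2, c1, c3, c24.1, c24.2, m]
      · by_cases c2 : τ x = y
        · have c4 := k2 c2
          by_cases m : x ∈ Y <;> simp [a0, a1, a2, c1, c3, c2, c4, m]
        · by_cases c4 : τ y = x
          · by_cases m : y ∈ Y <;> simp [a0, a1, a2, c1, c3, c2, c4, m]
          · simp [a0, a1, a2, c1, c3, c2, c4]
  rw [hone]
  by_cases hG : G.Adj x y
  · simp [hG]
  · simp [hG]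

end Pool.Agent.J6H93.PathCover
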